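import Pool.Agent.H8.TD.Targets

/-!
# Row RL1 of the board n3_modules: algebraic relations on the cone over a curve
-/

set_option autoImplicit false

open MvPolynomial
open Pool.Agent.H12.ZD (pmap v O Res DenseOrbit NoInv)
open Pool.Agent.H18.HIT
open Pool.Agent.H8.ZA (HFam Const NA sz)
open Pool.Agent.H8.TD

namespace Pool.Agent.H38.TD

/-- the function field of the cone -/
theorem rl1_setup {k : Type} [Field k] (I : Ideal (Po 4 k)) (hI : I.IsPrime) :
    ∃ (L : Type) (_ : Field L) (_ : Algebra k L) (π : Po 4 k →ₐ[k] L),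
      (∀ q, π q = 0 ↔ q ∈ I) ∧ (∀ z : L, ∃ p q, π q ≠ 0 ∧ z = π p / π q) ∧
      ∀ T : Tup 4 k, (∀ q, aeval T q ∈ I ↔ q ∈ I) →
        ∃ τ : L →ₐ[k] L, ∀ q, τ (π q) = π (aeval T q) := by
  let A := Po 4 k ⧸ I
  let L := FractionRing A
  let π : Po 4 k →ₐ[k] L := (IsScalarTower.toAlgHom k A L).comp (Ideal.Quotient.mkₐ k I)
  have hπ : ∀ q, π q = algebraMap A L (Ideal.Quotient.mk I q) := fun q => rfl
  have hker : ∀ q, π q = 0 ↔ q ∈ I := by
    intro q
    rw [hπ, ← Ideal.Quotient.eq_zero_iff_mem]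
    exact (IsFractionRing.injective A L).eq_iff' (map_zero _)
  refine ⟨L, inferInstance, inferInstance, π, hker, ?_, ?_⟩
  · intro z
    obtain ⟨a, b, hb, rfl⟩ := IsFractionRing.div_surjective (A := A) z
    obtain ⟨p, rfl⟩ := Ideal.Quotient.mk_surjective a
    obtain ⟨q, rfl⟩ := Ideal.Quotient.mk_surjective b
    refine ⟨p, q, ?_, rfl⟩
    rw [hπ]
    intro h0
    have h1 := (IsFractionRing.injective A L).eq_iff' (map_zero _) |>.1 h0
    exact nonZeroDivisors.ne_zero hb h1
  · intro T hT
    let f : Po 4 k →ₐ[k] L := π.comp (aeval T)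
    have hf : ∀ a ∈ I, f a = 0 := by
      intro a ha
      show π (aeval T a) = 0
      rw [hker, hT]
      exact ha
    let g : A →ₐ[k] L := Ideal.Quotient.liftₐ I f hf
    have hg : ∀ q, g (Ideal.Quotient.mk I q) = π (aeval T q) := fun q => rfl
    have hinj : Function.Injective g := by
      rw [injective_iff_map_eq_zero]
      intro a ha
      obtain ⟨q, rfl⟩ := Ideal.Quotient.mk_surjective a
      rw [hg, hker, hT] at ha
      exact Ideal.Quotient.eq_zero_iff_mem.2 ha
    refine ⟨IsFractionRing.liftAlgHom (K := L) hinj, ?_⟩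
    intro q
    rw [hπ, ← hg]
    exact IsFractionRing.lift_algebraMap (K := L) hinj _

/-- homogeneous polynomials and scaling -/
theorem rl1_scale {k B : Type} [CommRing k] [CommRing B] [Algebra k B] {N : ℕ}
    (P : Po N k) (D : ℕ) (hP : P.IsHomogeneous D) (c : B) (z : Fin N → B) :
    aeval (fun i => c * z i) P = c ^ D * aeval z P := by
  rw [aeval_def, aeval_def, eval₂_eq, eval₂_eq, Finset.mul_sum]
  refine Finset.sum_congr rfl fun m hm => ?_
  have h1 : ∑ i ∈ m.support, m i = D := by
    have h2 := hP (mem_support_iff.1 hm)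
    rw [← h2, Finsupp.weight_apply]
    simp [Finsupp.sum]
  have h3 : ∏ i ∈ m.support, (c * z i) ^ m i = c ^ D * ∏ i ∈ m.support, z i ^ m i := by
    simp_rw [mul_pow]
    rw [Finset.prod_mul_distrib, Finset.prod_pow_eq_pow_sum, h1]
  rw [h3]
  ring

theorem rl1_hom_mem {k : Type} [Field k] (I : Ideal (Po 4 k))
    (hom : ∀ q ∈ I, ∀ m, homogeneousComponent m q ∈ I) (c : k) (q : Po 4 k) (hq : q ∈ I) :
    aeval (fun i => C c * X i : Tup 4 k) q ∈ I := by
  conv in aeval _ q => rw [← sum_homogeneousComponent q]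
  rw [map_sum]
  refine Ideal.sum_mem _ fun m _ => ?_
  rw [rl1_scale _ m (homogeneousComponent_isHomogeneous m q) (C c) (fun i => X i)]
  rw [show (fun i => X i : Fin 4 → Po 4 k) = X from rfl, aeval_X_left_apply]
  exact I.mul_mem_left _ (hom q hq m)

theorem rl1_hom_iff {k : Type} [Field k] (I : Ideal (Po 4 k))
    (hom : ∀ q ∈ I, ∀ m, homogeneousComponent m q ∈ I) (c : k) (hc : c ≠ 0) (q : Po 4 k) :
    aeval (fun i => C c * X i : Tup 4 k) q ∈ I ↔ q ∈ I := by
  refine ⟨fun h => ?_, rl1_hom_mem I hom c q⟩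
  have h1 := rl1_hom_mem I hom c⁻¹ _ h
  rw [← aeval_comp] at h1
  have h2 : comp (fun i => C c * X i : Tup 4 k) (fun i => C c⁻¹ * X i : Tup 4 k) =
      fun i => X i := by
    funext i
    unfold comp
    rw [map_mul, aeval_X, aeval_C, algebraMap_eq, ← mul_assoc, ← C_mul, mul_inv_cancel₀ hc,
      C_1, one_mul]
  rw [h2, show (fun i => X i : Fin 4 → Po 4 k) = X from rfl, aeval_X_left_apply] at h1
  exact h1

section

variable {k L : Type} [Field k] [Field L] [Algebra k L]

theorem rl1_mem {F : Type} [Field F] [Algebra k F] [Algebra F L] [IsScalarTower k F L]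
    (π : Po 4 k →ₐ[k] L) (E : IntermediateField F L) (h : ∀ i, π (X i) ∈ E) (p : Po 4 k) :
    π p ∈ E := by
  induction p using MvPolynomial.induction_on with
  | C a =>
    have h1 : π (C a) = algebraMap F L (algebraMap k F a) := by
      rw [← IsScalarTower.algebraMap_apply, ← AlgHom.commutes π a]
      rfl
    rw [h1]
    exact E.algebraMap_mem _
  | add a b ha hb =>
    rw [map_add]
    exact E.add_mem ha hb
  | mul_X a i ha =>
    rw [map_mul]
    exact E.mul_mem ha (h i)

theorem rl1_top {F : Type} [Field F] [Algebra k F] [Algebra F L] [IsScalarTower k F L]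
    (π : Po 4 k →ₐ[k] L) (hfr : ∀ z : L, ∃ p q, π q ≠ 0 ∧ z = π p / π q)
    (E : IntermediateField F L) (h : ∀ i, π (X i) ∈ E) : E = ⊤ := by
  rw [eq_top_iff]
  intro z _
  obtain ⟨p, q, -, rfl⟩ := hfr z
  exact E.div_mem (rl1_mem π E h p) (rl1_mem π E h q)

/-- the affine coordinates -/
noncomputable def xi (π : Po 4 k →ₐ[k] L) (i : Fin 4) : L := π (X i) / π (X 0)

/-- the field of the functions of degree zero -/
abbrev Kx (π : Po 4 k →ₐ[k] L) : IntermediateField k L :=
  IntermediateField.adjoin k (Set.range (xi π))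

theorem xi_mem (π : Po 4 k →ₐ[k] L) (i : Fin 4) : xi π i ∈ Kx π :=
  IntermediateField.subset_adjoin _ _ ⟨i, rfl⟩

/-- `x₀` is transcendental over the functions of degree zero -/
theorem rl1_tr [Infinite k] (π : Po 4 k →ₐ[k] L) (hx0 : π (X 0) ≠ 0)
    (hsc : ∀ c : k, c ≠ 0 → ∃ σ : L →ₐ[k] L, ∀ q, σ (π q) = π (aeval (fun i => C c * X i) q)) :
    Transcendental (Kx π) (π (X 0)) := by
  intro halg
  obtain ⟨p, hp0, hp⟩ := halg
  have hroot : ∀ c : k, c ≠ 0 → algebraMap k L c * π (X 0) ∈ p.rootSet L := by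
    intro c hc
    obtain ⟨σ, hσ⟩ := hsc c hc
    have hX : ∀ i, σ (π (X i)) = algebraMap k L c * π (X i) := by
      intro i
      rw [hσ, aeval_X, map_mul]
      congr 1
      exact AlgHom.commutes π c
    have hfix : ∀ z : Kx π, σ (z : L) = (z : L) := by
      have hle : Kx π ≤ (AlgHom.equalizer σ (AlgHom.id k L)).toIntermediateField
          (fun z hz => by
            rw [AlgHom.mem_equalizer] at hz ⊢
            rw [map_inv₀, hz]
            rfl) := by
        rw [IntermediateField.adjoin_le_iff]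
        rintro _ ⟨i, rfl⟩
        show σ (xi π i) = xi π i
        unfold xi
        rw [map_div₀, hX, hX, mul_div_mul_left]
        exact (map_ne_zero _).2 hc
      intro z
      exact hle z.2
    let σ' : L →ₐ[Kx π] L := { σ.toRingHom with commutes' := hfix }
    have h1 : Polynomial.aeval (σ' (π (X 0))) p = 0 := by
      rw [Polynomial.aeval_algHom_apply, hp, map_zero]
    have h2 : σ' (π (X 0)) = algebraMap k L c * π (X 0) := hX 0
    rw [h2] at h1
    exact Polynomial.mem_rootSet.2 ⟨hp0, h1⟩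
  have hinf : (Set.range fun c : {c : k // c ≠ 0} =>
      algebraMap k L (c : k) * π (X 0)).Infinite := by
    have : Infinite {c : k // c ≠ 0} := by
      have h3 : ({0}ᶜ : Set k).Infinite := (Set.finite_singleton 0).infinite_compl
      exact h3.to_subtype
    apply Set.infinite_range_of_injective
    intro a b hab
    have h4 := mul_right_cancel₀ hx0 hab
    exact Subtype.ext ((algebraMap k L).injective h4)
  apply hinf
  apply (Polynomial.rootSet_finite p L).subset
  rintro _ ⟨c, rfl⟩
  exact hroot c c.2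

theorem rl1_gen (π : Po 4 k →ₐ[k] L) (hx0 : π (X 0) ≠ 0)
    (hfr : ∀ z : L, ∃ p q, π q ≠ 0 ∧ z = π p / π q) :
    IntermediateField.adjoin (Kx π) {π (X 0)} = ⊤ := by
  apply rl1_top π hfr
  intro i
  have h1 : π (X i) = algebraMap (Kx π) L ⟨xi π i, xi_mem π i⟩ * π (X 0) := by
    show π (X i) = xi π i * π (X 0)
    unfold xi
    rw [div_mul_cancel₀ _ hx0]
  rw [h1]
  exact mul_mem (IntermediateField.algebraMap_mem _ _)
    (IntermediateField.subset_adjoin _ _ rfl)

/-- homogeneous functions in terms of the affine coordinates -/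
theorem rl1_hom_val (π : Po 4 k →ₐ[k] L) (hx0 : π (X 0) ≠ 0) (P : Po 4 k) (D : ℕ)
    (hP : P.IsHomogeneous D) : π P = π (X 0) ^ D * aeval (xi π) P := by
  rw [← rl1_scale P D hP]
  have h1 : (fun i => π (X 0) * xi π i) = fun i => π (X i) := by
    funext i
    unfold xi
    rw [mul_div_cancel₀ _ hx0]
  rw [h1]
  have h2 : π = aeval (fun i => π (X i)) := by
    apply algHom_ext
    intro i
    rw [aeval_X]
  exact DFunLike.congr_fun h2 P

theorem rl1_aeval_mem (π : Po 4 k →ₐ[k] L) (P : Po 4 k) : aeval (xi π) P ∈ Kx π := by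
  induction P using MvPolynomial.induction_on with
  | C a =>
    rw [aeval_C]
    exact (Kx π).algebraMap_mem _
  | add a b ha hb =>
    rw [map_add]
    exact (Kx π).add_mem ha hb
  | mul_X a i ha =>
    rw [map_mul, aeval_X]
    exact (Kx π).mul_mem ha (xi_mem π i)

/-- the action on the functions of degree zero -/
theorem rl1_tau0 (π : Po 4 k →ₐ[k] L) (hx0 : π (X 0) ≠ 0) (T : Tup 4 k) (D : ℕ)
    (hT : ∀ i, (T i).IsHomogeneous D) (τ : L →ₐ[k] L) (hτ : ∀ q, τ (π q) = π (aeval T q)) :
    ∃ τ₀ : Kx π →ₐ[k] Kx π, ∀ z : Kx π, τ (z : L) = (τ₀ z : L) := by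
  have hle : Kx π ≤ (Kx π).comap τ := by
    rw [IntermediateField.adjoin_le_iff]
    rintro _ ⟨i, rfl⟩
    show τ (xi π i) ∈ Kx π
    have h1 : τ (xi π i) = aeval (xi π) (T i) / aeval (xi π) (T 0) := by
      have h2 : τ (xi π i) = π (T i) / π (T 0) := by
        unfold xi
        rw [map_div₀, hτ, hτ, aeval_X, aeval_X]
      rw [h2, rl1_hom_val π hx0 _ D (hT i), rl1_hom_val π hx0 _ D (hT 0),
        mul_div_mul_left _ _ (pow_ne_zero D hx0)]
    rw [h1]
    exact (Kx π).div_mem (rl1_aeval_mem π _) (rl1_aeval_mem π _)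
  exact ⟨(τ.comp (Kx π).val).codRestrict (Kx π).toSubalgebra (fun z => hle z.2), fun z => rfl⟩

end

/-- a field generated by one integral element -/
theorem rl1_simple {F L : Type} [Field F] [Field L] [Algebra F L] (θ : L) (P : Polynomial F)
    (hP : P.Monic) (hθ : Polynomial.aeval θ P = 0)
    (htop : IntermediateField.adjoin F {θ} = ⊤) :
    FiniteDimensional F L ∧ Module.finrank F L ≤ P.natDegree := by
  have hint : IsIntegral F θ := ⟨P, hP, hθ⟩
  have h1 : FiniteDimensional F (IntermediateField.adjoin F {θ}) :=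
    IntermediateField.adjoin.finiteDimensional hint
  have h2 : Module.finrank F (IntermediateField.adjoin F {θ}) = (minpoly F θ).natDegree :=
    IntermediateField.adjoin.finrank hint
  rw [htop] at h1 h2
  have h3 : FiniteDimensional F L :=
    Module.Finite.equiv (IntermediateField.topEquiv (F := F) (E := L)).toLinearEquiv
  refine ⟨h3, ?_⟩
  rw [IntermediateField.finrank_top'] at h2
  rw [h2]
  exact Polynomial.natDegree_le_natDegree (minpoly.min F θ hP hθ)

/-- the degree of the function field of the cone over its image -/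
theorem rl1_deg {k L : Type} [Field k] [Field L] [Algebra k L] (π : Po 4 k →ₐ[k] L)
    (hfr : ∀ z : L, ∃ p q, π q ≠ 0 ∧ z = π p / π q) (T : Tup 4 k)
    (τ : L →ₐ[k] L) (hτ : ∀ q, τ (π q) = π (aeval T q)) (θ : Po 4 k)
    (Φ : Polynomial (Po 4 k)) (Δ : Po 4 k) (R : Fin 4 → Polynomial (Po 4 k))
    (hP : Prim T θ Φ Δ R) (hΔ : π Δ ≠ 0) :
    FiniteDimensional τ.fieldRange L ∧ Module.finrank τ.fieldRange L ≤ Φ.natDegree := by
  let c : Po 4 k →+* τ.fieldRange :=
    (τ.rangeRestrict : L →ₐ[k] τ.range).toRingHom.comp π.toRingHom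
  have hc : ∀ q, algebraMap τ.fieldRange L (c q) = π (aeval T q) := fun q => hτ q
  have hc2 : (algebraMap τ.fieldRange L).comp c =
      π.toRingHom.comp (aeval T : Po 4 k →ₐ[k] Po 4 k).toRingHom := by
    exact RingHom.ext fun q => hc q
  have hev : ∀ Q : Polynomial (Po 4 k), π (ev2 T θ Q) = Polynomial.aeval (π θ) (Q.map c) := by
    intro Q
    unfold ev2
    rw [Polynomial.aeval_def, Polynomial.eval₂_map, hc2]
    exact Polynomial.hom_eval₂ Q (aeval T : Po 4 k →ₐ[k] Po 4 k).toRingHom π.toRingHom θ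
  have h1 : Polynomial.aeval (π θ) (Φ.map c) = 0 := by
    rw [← hev, hP.root, map_zero]
  have h2 : IntermediateField.adjoin τ.fieldRange {π θ} = ⊤ := by
    apply rl1_top π hfr
    intro i
    have h3 := congrArg π (hP.coord i)
    rw [map_mul, hev, ← hc] at h3
    have h4 : algebraMap τ.fieldRange L (c Δ) ≠ 0 := by
      have h5 : algebraMap τ.fieldRange L (c Δ) = τ (π Δ) := rfl
      rw [h5]
      exact (map_ne_zero τ).2 hΔ
    have h6 : π (X i) = Polynomial.aeval (π θ) ((R i).map c) /
        algebraMap τ.fieldRange L (c Δ) := by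
      rw [eq_div_iff h4, mul_comm]
      exact h3
    rw [h6]
    refine div_mem ?_ (IntermediateField.algebraMap_mem _ _)
    exact IntermediateField.algebra_adjoin_le_adjoin _ _
      (Polynomial.aeval_mem_adjoin_singleton _ _)
  obtain ⟨h8, h9⟩ := rl1_simple (π θ) (Φ.map c) (hP.monic.map c) h1 h2
  refine ⟨h8, h9.trans Polynomial.natDegree_map_le⟩

/-- a finitely generated field which is algebraic over a subfield -/
theorem rl1_fin {k K : Type} [Field k] [Field K] [Algebra k K] (s : Set K) (hs : s.Finite)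
    (hgen : IntermediateField.adjoin k s = ⊤) (F : IntermediateField k K)
    (h : ∀ x ∈ s, IsIntegral F x) : FiniteDimensional F K := by
  have : Finite s := hs
  have h1 : FiniteDimensional F (IntermediateField.adjoin F s) :=
    IntermediateField.finiteDimensional_adjoin h
  have h2 : IntermediateField.adjoin F s = ⊤ := by
    have h3 : IntermediateField.adjoin k s ≤
        (IntermediateField.adjoin F s).restrictScalars k := by
      rw [IntermediateField.adjoin_le_iff]
      exact IntermediateField.subset_adjoin F s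
    rw [hgen] at h3
    rw [eq_top_iff]
    intro z _
    exact h3 (IntermediateField.mem_top (x := z))
  rw [h2] at h1
  exact Module.Finite.equiv (IntermediateField.topEquiv (F := F) (E := K)).toLinearEquiv

/-- a finitely generated field of transcendence degree at most one -/
theorem rl1_curve {k K : Type} [Field k] [Field K] [Algebra k K] (s : Set K) (hs : s.Finite)
    (hgen : IntermediateField.adjoin k s = ⊤) (htr : Algebra.trdeg k K ≤ 1) :
    ∃ y : K, FiniteDimensional (IntermediateField.adjoin k {y}) K := by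
  by_cases hex : ∃ y : K, Transcendental k y
  · obtain ⟨y, hy⟩ := hex
    refine ⟨y, rl1_fin s hs hgen _ ?_⟩
    have h1 : AlgebraicIndependent k (fun _ : Unit => y) :=
      (algebraicIndependent_unique_type_iff (ι := Unit)).2 hy
    have h2 : IsTranscendenceBasis k (fun _ : Unit => y) :=
      h1.isTranscendenceBasis_of_trdeg_le_of_finite (by
        rw [Cardinal.mk_fintype]
        simpa using htr)
    have h3 := h2.isAlgebraic_field
    intro x _
    have h4 := h3.isAlgebraic x
    have h5 : Set.range (fun _ : Unit => y) = {y} := by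
      ext z
      simp [eq_comm]
    rw [h5] at h4
    exact h4.isIntegral
  · push Not at hex
    refine ⟨0, rl1_fin s hs hgen _ ?_⟩
    intro x _
    have h4 : IsAlgebraic k x := by
      by_contra h5
      exact hex x h5
    exact (h4.isIntegral).tower_top

section

variable {k L : Type} [Field k] [Field L] [Algebra k L]

/-- the functions of degree zero are generated by the coordinates -/
theorem rl1_Kgen (π : Po 4 k →ₐ[k] L) :
    IntermediateField.adjoin k (Set.range fun i => (⟨xi π i, xi_mem π i⟩ : Kx π)) = ⊤ := by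
  apply IntermediateField.lift_injective (Kx π)
  rw [IntermediateField.lift_adjoin, IntermediateField.lift_top, ← Set.range_comp]
  rfl

/-- the functions of degree zero form the function field of a curve -/
theorem rl1_trdeg (hCTD : T_CTD) [Infinite k] (π : Po 4 k →ₐ[k] L)
    (hfr : ∀ z : L, ∃ p q, π q ≠ 0 ∧ z = π p / π q)
    (htr : Transcendental (Kx π) (π (X 0))) (S S' : Po 4 k) (hS : π S = 0) (hS' : π S' = 0)
    (hS0 : S ≠ 0) (hS0' : S' ≠ 0) (hrel : IsRelPrime S S') :
    Algebra.trdeg k (Kx π) ≤ 1 := by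
  have hev : ∀ P, π P = aeval (fun i => π (X i)) P := by
    intro P
    have h2 : π = aeval (fun i => π (X i)) := by
      apply algHom_ext
      intro i
      rw [aeval_X]
    exact DFunLike.congr_fun h2 P
  have h1 := hCTD k L S S' (fun i => π (X i)) hS0 hS0' hrel (by rw [← hev, hS])
    (by rw [← hev, hS'])
  have h2 : IntermediateField.adjoin k (Set.range fun i => π (X i)) = ⊤ :=
    rl1_top π hfr _ fun i => IntermediateField.subset_adjoin _ _ ⟨i, rfl⟩
  rw [h2, (IntermediateField.topEquiv (F := k) (E := L)).trdeg_eq] at h1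
  rw [← trdeg_add_eq k (Kx π) (A := L)] at h1
  have h3 : Algebra.trdeg (Kx π) L ≠ 0 := by
    have h4 : Algebra.Transcendental (Kx π) L := ⟨_, htr⟩
    exact (trdeg_pos (Kx π) L).ne'
  have h5 : (1 : Cardinal) ≤ Algebra.trdeg (Kx π) L := Cardinal.one_le_iff_ne_zero.2 h3
  obtain ⟨a, ha⟩ := Cardinal.lt_aleph0.1 ((le_self_add.trans h1).trans_lt
    (Cardinal.natCast_lt_aleph0 (n := 2)))
  obtain ⟨b, hb⟩ := Cardinal.lt_aleph0.1 ((le_add_self.trans h1).trans_lt
    (Cardinal.natCast_lt_aleph0 (n := 2)))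
  rw [ha, hb] at h1
  rw [hb] at h5
  rw [ha]
  have h6 : a + b ≤ 2 := by exact_mod_cast h1
  have h7 : 1 ≤ b := by exact_mod_cast h5
  have h8 : a ≤ 1 := by omega
  exact_mod_cast h8

end

/-- the homogenization of a polynomial in two variables -/
noncomputable def HH {k : Type} [Field k] (G : Polynomial (Polynomial k)) (N N' : ℕ) {E : Type}
    [CommRing E] [Algebra k E] (u w c d : E) : E :=
  ∑ m ∈ Finset.range (N' + 1), (∑ l ∈ Finset.range (N + 1),
    algebraMap k E ((G.coeff m).coeff l) * (u ^ l * w ^ (N - l))) * (c ^ m * d ^ (N' - m))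

theorem HH_map {k : Type} [Field k] (G : Polynomial (Polynomial k)) (N N' : ℕ) {E E' : Type}
    [CommRing E] [Algebra k E] [CommRing E'] [Algebra k E'] (f : E →ₐ[k] E') (u w c d : E) :
    f (HH G N N' u w c d) = HH G N N' (f u) (f w) (f c) (f d) := by
  unfold HH
  simp only [map_sum, map_mul, map_pow, AlgHom.commutes]

theorem HH_eq {k : Type} [Field k] (G : Polynomial (Polynomial k)) (N N' : ℕ) {E : Type}
    [CommRing E] [Algebra k E] (hN : ∀ m, (G.coeff m).natDegree ≤ N) (hN' : G.natDegree ≤ N')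
    (a w b d : E) : HH G N N' (a * w) w (b * d) d =
      w ^ N * d ^ N' * G.eval₂ (Polynomial.aeval a : Polynomial k →ₐ[k] E).toRingHom b := by
  rw [Polynomial.eval₂_eq_sum_range' _ (Nat.lt_succ_of_le hN')]
  unfold HH
  rw [Finset.mul_sum]
  refine Finset.sum_congr rfl fun m hm => ?_
  have hm' : m ≤ N' := Nat.lt_succ_iff.1 (Finset.mem_range.1 hm)
  have h1 : ∑ l ∈ Finset.range (N + 1),
      algebraMap k E ((G.coeff m).coeff l) * ((a * w) ^ l * w ^ (N - l)) =
      w ^ N * Polynomial.aeval a (G.coeff m) := by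
    rw [Polynomial.aeval_eq_sum_range' (Nat.lt_succ_of_le (hN m)), Finset.mul_sum]
    refine Finset.sum_congr rfl fun l hl => ?_
    have hl' : l ≤ N := Nat.lt_succ_iff.1 (Finset.mem_range.1 hl)
    have h2 : w ^ N = w ^ l * w ^ (N - l) := by rw [← pow_add, Nat.add_sub_cancel' hl']
    rw [h2, Algebra.smul_def, mul_pow]
    ring
  rw [h1]
  have h3 : d ^ N' = d ^ m * d ^ (N' - m) := by rw [← pow_add, Nat.add_sub_cancel' hm']
  rw [h3, mul_pow]
  show _ = _ * (Polynomial.aeval a (G.coeff m) * b ^ m)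
  ring

theorem pf_RL1 (hSL1 : T_SL1) (hRL0 : T_RL0) (hCTD : T_CTD) : T_RL1 := by
  intro k _ _ _ I T D e θ Φ Δ R S S' hI hD hT hom hX0 hTI hP hΔ hdeg hS hS' hS0 hS0' hrel i j
  obtain ⟨L, _, _, π, hker, hfr, hext⟩ := rl1_setup I hI
  have hx0 : π (X 0) ≠ 0 := fun h0 => hX0 ((hker _).1 h0)
  have htr : Transcendental (Kx π) (π (X 0)) := by
    apply rl1_tr π hx0
    intro c hc
    exact hext (fun i => C c * X i) (rl1_hom_iff I hom c hc)
  obtain ⟨τ, hτ⟩ := hext T hTI
  obtain ⟨τ₀, hτ₀⟩ := rl1_tau0 π hx0 T D hT τ hτ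
  obtain ⟨hfin, hle⟩ := rl1_deg π hfr T τ hτ θ Φ Δ R hP (fun h0 => hΔ ((hker _).1 h0))
  have hT0 : π (T 0) ≠ 0 := by
    intro h0
    apply hX0
    rw [← hTI, aeval_X]
    exact (hker _).1 h0
  have hT0' : π (T 0) = π (X 0) ^ D * aeval (xi π) (T 0) := rl1_hom_val π hx0 _ D (hT 0)
  -- the degree of the action on the functions of degree zero
  obtain ⟨hfin0, hle0⟩ := hSL1 k (Kx π) L τ₀ τ (π (X 0)) ⟨aeval (xi π) (T 0),
    rl1_aeval_mem π (T 0)⟩ D hD htr (rl1_gen π hx0 hfr)
    (by
      intro h0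
      have h1 : aeval (xi π) (T 0) = 0 := congrArg (fun z : Kx π => (z : L)) h0
      rw [h1, mul_zero] at hT0'
      exact hT0 hT0')
    (fun x => hτ₀ x)
    (by
      rw [hτ, aeval_X]
      exact hT0')
    hfin
  have hle1 : Module.finrank τ₀.fieldRange (Kx π) ≤ e :=
    Nat.le_of_mul_le_mul_left (hle0.trans (hle.trans hdeg)) hD
  -- the functions of degree zero are the functions on a curve
  have htd := rl1_trdeg hCTD π hfr htr S S' ((hker _).2 hS) ((hker _).2 hS') hS0 hS0' hrel
  have hcurve := rl1_curve (k := k) (K := Kx π) _ (Set.finite_range _) (rl1_Kgen π) htd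
  obtain ⟨M, hM⟩ := hRL0 k (Kx π) τ₀ e ⟨xi π j, xi_mem π j⟩ ⟨xi π i, xi_mem π i⟩ hcurve hfin0 hle1
  refine ⟨M, fun n => ?_⟩
  obtain ⟨G, hG0, hGd, hG⟩ := hM n
  refine ⟨G, hG0, hGd, ?_⟩
  -- the iterates
  have hit : ∀ q, τ^[n] (π q) = π (aeval (it T n) q) := by
    clear hG hGd hM
    induction n with
    | zero =>
      intro q
      rw [it_zero, show (fun i => X i : Tup 4 k) = X from rfl, aeval_X_left_apply]
      rfl
    | succ n ih =>
      intro q
      rw [Function.iterate_succ_apply', ih, hτ, it_succ', aeval_comp]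
  have hit0 : ∀ z : Kx π, ((τ₀^[n] z : Kx π) : L) = τ^[n] (z : L) := by
    clear hG hGd hM hit
    induction n with
    | zero => intro z; rfl
    | succ n ih =>
      intro z
      rw [Function.iterate_succ_apply, Function.iterate_succ_apply, ih, hτ₀]
  have hdn : π (it T n 0) ≠ 0 := by
    have h1 := hit (X 0)
    rw [aeval_X] at h1
    rw [← h1]
    intro h2
    apply hx0
    have h3 : Function.Injective τ^[n] := (RingHom.injective τ.toRingHom).iterate n
    apply h3
    rw [h2]
    exact (Function.iterate_fixed (map_zero τ) n).symm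
  have hφ : τ^[n] (xi π i) = π (it T n i) / π (it T n 0) := by
    rw [eq_div_iff hdn]
    have h1 : π (it T n i) = τ^[n] (π (X i)) := by rw [hit, aeval_X]
    have h2 : π (it T n 0) = τ^[n] (π (X 0)) := by rw [hit, aeval_X]
    rw [h1, h2]
    have h3 : ∀ a b : L, τ^[n] a * τ^[n] b = τ^[n] (a * b) := by
      clear hG hGd hM hit hit0 hdn h1 h2
      induction n with
      | zero => intro a b; rfl
      | succ n ih =>
        intro a b
        rw [Function.iterate_succ_apply', Function.iterate_succ_apply',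
          Function.iterate_succ_apply', ← map_mul, ih]
    rw [h3]
    congr 1
    unfold xi
    rw [div_mul_cancel₀ _ hx0]
  -- the relation in the function field of the cone
  have hrelL : G.eval₂ (Polynomial.aeval (xi π j) : Polynomial k →ₐ[k] L).toRingHom
      (π (it T n i) / π (it T n 0)) = 0 := by
    have h1 := congrArg (algebraMap (Kx π) L) hG
    rw [map_zero, Polynomial.hom_eval₂] at h1
    have h2 : (algebraMap (Kx π) L).comp
        (Polynomial.aeval (⟨xi π j, xi_mem π j⟩ : Kx π) : Polynomial k →ₐ[k] Kx π).toRingHom =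
        (Polynomial.aeval (xi π j) : Polynomial k →ₐ[k] L).toRingHom := by
      refine RingHom.ext fun q => ?_
      exact (Polynomial.aeval_algebraMap_apply L (⟨xi π j, xi_mem π j⟩ : Kx π) q).symm
    have h3 : algebraMap (Kx π) L (τ₀^[n] ⟨xi π i, xi_mem π i⟩) =
        π (it T n i) / π (it T n 0) := by
      rw [← hφ]
      exact hit0 _
    rw [h2, h3] at h1
    exact h1
  have hmem : HH G (M * e ^ n) G.natDegree (X j : Po 4 k) (X 0) (it T n i) (it T n 0) ∈ I := by
    rw [← hker, HH_map]
    have h1 : π (X j) = xi π j * π (X 0) := by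
      unfold xi
      rw [div_mul_cancel₀ _ hx0]
    have h2 : π (it T n i) = π (it T n i) / π (it T n 0) * π (it T n 0) :=
      (div_mul_cancel₀ _ hdn).symm
    rw [h1, h2, HH_eq G _ _ hGd le_rfl, hrelL, mul_zero]
  intro y hy hy0 hyn
  have h1 := hy _ hmem
  have h2 : eval y (HH G (M * e ^ n) G.natDegree (X j : Po 4 k) (X 0) (it T n i) (it T n 0)) =
      HH G (M * e ^ n) G.natDegree (y j) (y 0) ((pmap T)^[n] y i) ((pmap T)^[n] y 0) := by
    have h3 := HH_map G (M * e ^ n) G.natDegree (aeval y : Po 4 k →ₐ[k] k) (X j) (X 0)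
      (it T n i) (it T n 0)
    rw [aeval_X, aeval_X] at h3
    have h4 : ∀ l, (aeval y : Po 4 k →ₐ[k] k) (it T n l) = (pmap T)^[n] y l := by
      intro l
      rw [← pmap_it]
      rfl
    rw [h4, h4] at h3
    exact h3
  rw [h2] at h1
  have h5 : y j = y j / y 0 * y 0 := (div_mul_cancel₀ _ hy0).symm
  have h6 : (pmap T)^[n] y i = (pmap T)^[n] y i / (pmap T)^[n] y 0 * (pmap T)^[n] y 0 :=
    (div_mul_cancel₀ _ hyn).symm
  rw [h5, h6, HH_eq G _ _ hGd le_rfl] at h1
  have h7 := (mul_eq_zero.1 h1).resolve_left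
    (mul_ne_zero (pow_ne_zero _ hy0) (pow_ne_zero _ hyn))
  rw [Polynomial.eval_map]
  exact h7

end Pool.Agent.H38.TD
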